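import Pool.Agent.Y851.JM.A3
import Pool.Agent.Y837.JM.MM
import Pool.Agent.Y908.JM.PM

/-!
# Correlations of the numbers of primes in windows of length `(log x) ^ a` at almost all dilates

Let `θ > 0` be arbitrarily small, let `A` be an arbitrary set of integers in `[β X ^ θ, X ^ θ]` containing a positive proportion of
the integers or of the primes, and let `Y` be an arbitrary finite set of real numbers in `(0, X ^ (1 - θ)]` which is not
concentrated on few intervals of length `log X / X ^ θ`. Let `H_1, ..., H_n` be arbitrary lengths between `λ log X` and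
`(log X) ^ K`, for instance all equal to `(log X) ^ 2`. Then for almost all `n`-tuples `(a_1, ..., a_n)` of elements of `A` the
product of the numbers of primes in the windows `(a_j y - H_j, a_j y)`, `j = 1, ..., n`, has over `y ∈ Y` the mean value which it
would have if the windows behaved independently: with `λ` arbitrarily small this holds down to the mean gap between primes. The
same holds with the roles of `A` and `Y` exchanged.
-/

set_option autoImplicit false

namespace Pool.Agent.Results.MP_45ff98_nt.CorrelationsAtDilates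

open Finset

/-- the number of primes in the open interval `(x - H, x)`, divided by its expected value `H / log x` -/
noncomputable def density (H x : ℝ) : ℝ :=
  (Set.ncard {p : ℕ | p.Prime ∧ x - H < p ∧ (p : ℝ) < x} : ℝ) * Real.log x / H

open Classical in
theorem result (n K : ℕ) (hn : 1 ≤ n) (θ lam β B δ : ℝ) (hθ : 0 < θ) (hlam : 0 < lam) (hβ : 0 < β) (hδ : 0 < δ) :
    ∃ X₀ : ℝ, ∀ X : ℝ, X₀ ≤ X →
    ∀ H : Fin n → ℝ, (∀ j, lam * Real.log X ≤ H j ∧ H j ≤ Real.log X ^ K) → ∀ (A : Finset ℕ) (Y : Finset ℝ),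
      (∀ a ∈ A, β * X ^ θ ≤ (a : ℝ) ∧ (a : ℝ) ≤ X ^ θ) →
      (δ * X ^ θ ≤ A.card ∨ ((∀ a ∈ A, a.Prime) ∧ δ * (X ^ θ / Real.log X) ≤ A.card)) →
      (∀ y ∈ Y, 0 < y ∧ y ≤ X ^ (1 - θ)) →
      (∀ u : ℝ, ((Y.filter (fun y => u ≤ y ∧ y ≤ u + Real.log X / X ^ θ)).card : ℝ) ≤ B * (Real.log X / X) * Y.card) →
      -- almost all `n`-tuples of elements of `A`
      (((Fintype.piFinset (fun _ : Fin n => A)).filter (fun a => ¬
        |∑ y ∈ Y, ∏ j, density (H j) (a j * y) - Y.card| ≤ δ * Y.card)).card : ℝ) ≤ δ * (A.card : ℝ) ^ n ∧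
      -- almost all `n`-tuples of elements of `Y`
      (((Fintype.piFinset (fun _ : Fin n => Y)).filter (fun y => ¬
        |∑ a ∈ A, ∏ j, density (H j) (a * y j) - A.card| ≤ δ * A.card)).card : ℝ) ≤ δ * (Y.card : ℝ) ^ n := by
  have hden : ∀ H x : ℝ, density H x = Pool.Agent.Y851.PT.ZH H x := fun H x => (Pool.Agent.Y851.PT.ZH_eq H x).symm
  simp_rw [hden]
  obtain ⟨B₁, hB₁⟩ : ∃ B₁, B₁ = max B 1 := ⟨_, rfl⟩
  have hB₁0 : 1 ≤ B₁ := by rw [hB₁]; exact le_max_right _ _
  have hB₁1 : B ≤ B₁ := by rw [hB₁]; exact le_max_left _ _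
  obtain ⟨l₁, hl₁⟩ : ∃ l₁, l₁ = min lam 1 := ⟨_, rfl⟩
  have hl₁0 : 0 < l₁ := by rw [hl₁]; exact lt_min hlam one_pos
  have hl₁1 : l₁ ≤ lam := by rw [hl₁]; exact min_le_left _ _
  have hl₁2 : l₁ ≤ 1 := by rw [hl₁]; exact min_le_right _ _
  have hev := Pool.Agent.Y851.JM.corr (Pool.Agent.Y837.JM.t_MM Pool.Agent.Y908.JM.t_PM) θ l₁ β δ B₁ K n hn hθ hl₁0 hl₁2 hβ hδ hB₁0
  obtain ⟨X₀, hX₀⟩ := Filter.eventually_atTop.1 (hev.and (Filter.eventually_gt_atTop 1))
  refine ⟨X₀, fun X hX H hH A Y hA1 hA2 hY1 hY2 => ?_⟩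
  obtain ⟨h1, h2⟩ := hX₀ X hX
  have hX0 : 0 < X := by linarith only [h2]
  have hlog : 0 < Real.log X := Real.log_pos h2
  have hXθ : 0 < X ^ θ := Real.rpow_pos_of_pos hX0 θ
  have hadm : Pool.Agent.Y851.PS.Adm δ θ X A := by
    refine ⟨fun a ha => ⟨?_, (hA1 a ha).2⟩, hA2⟩
    have h3 : (0 : ℝ) < a := lt_of_lt_of_le (mul_pos hβ hXθ) (hA1 a ha).1
    have h4 : 0 < a := by exact_mod_cast h3
    exact h4
  have hsp : Pool.Agent.Y851.PT.SpH B₁ (Real.log X) θ X Y := by
    refine ⟨fun y hy => (hY1 y hy).1, fun y hy => (hY1 y hy).2, fun u => ?_⟩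
    refine (le_trans (le_of_eq ?_) (hY2 u)).trans ?_
    · congr!
    · apply mul_le_mul_of_nonneg_right _ (Nat.cast_nonneg _)
      exact mul_le_mul_of_nonneg_right hB₁1 (div_nonneg hlog.le hX0.le)
  obtain ⟨g1, g2⟩ := h1 H (fun j => ⟨(mul_le_mul_of_nonneg_right hl₁1 hlog.le).trans (hH j).1, (hH j).2⟩) A Y hadm
    (fun a ha => (hA1 a ha).1) hsp
  refine ⟨?_, ?_⟩
  · convert g2
  · convert g1

end Pool.Agent.Results.MP_45ff98_nt.CorrelationsAtDilates
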