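import Pool.Agent.Y961.JR.PGMain

set_option autoImplicit false

/-!
# Record prime gaps around several non-integral powers of a prime number, at the same time

Let `P₁, …, P_r` be generalised polynomials, that is, finite sums `P_j(t) = ∑ x ∈ F_j, a_j(x) t ^ x`
with real exponents `x` and real coefficients, whose leading exponents `c_j = max F_j` are positive,
distinct and not integers, and whose leading coefficients are positive. Let `b` be coprime to `d` and
`ρ > 0`. There is `κ > 0` such that for all large `Z` there is a prime `p ≡ b (mod d)` in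
`(Z, (1 + ρ) Z]` such that no prime lies within `κ f(Z)` of any of the numbers `P₁(p), …, P_r(p)`,
where `f(Z) = log Z (log₂ Z)² log₄ Z / (log₃ Z)²`. The second part is the special case of the powers
`α₁ p ^ (c₁), …, α_r p ^ (c_r)`; the case `r = 1` is new as well.

Proof (`Pool.Agent.Y961.JR`). The joint covering sieve for vectors of integer parts reduces the problem
to bounds for `∑ log p e(∑ h_j P_j(p) / q + β p)`, uniform in `|h_j|, q ≤ Z ^ η` and `β`. Vaughan's
identity (`Pool.Agent.H373R2.T7`) gives sums of type I and II. In the type II sums the differences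
`G(m l) - G(m l')` of the phase `G = ∑ h_j P_j / q` have, by the mean value theorem applied to
`t ^ k G⁽ᵏ⁾(t)`, derivatives in `m` of every high order of one sign and of the expected size, so one
order `K` of differencing (`K > 4 (c + 1)`), with the length of the shifts adapted to the size of the
derivative, gives a power saving in all ranges.
-/

namespace Pool.Agent.Results.MP_45ff98_nt.SeveralPowersOfPrimes

open Finset

/-- the size of the largest known prime gaps -/
noncomputable def f (Z : ℝ) : ℝ :=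
  Real.log Z * (Real.log (Real.log Z)) ^ 2 * Real.log (Real.log (Real.log (Real.log Z))) /
    (Real.log (Real.log (Real.log Z))) ^ 2

/-- no prime is at distance at most `d` from `x` -/
def PrimeFreeAround (x d : ℝ) : Prop := ∀ q : ℕ, q.Prime → d < |(q : ℝ) - x|

theorem result :
    (∀ (r : ℕ) (F : Fin r → Finset ℝ) (a : Fin r → ℝ → ℝ) (c : Fin r → ℝ), 1 ≤ r →
      (∀ j, c j ∈ F j ∧ ∀ x ∈ F j, x ≤ c j) → (∀ j, 0 < a j (c j)) → (∀ j, 0 < c j) →
      (∀ j, ∀ m : ℕ, c j ≠ m) → Function.Injective c →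
      ∀ (d b : ℕ), 0 < d → b.Coprime d → ∀ ρ : ℝ, 0 < ρ →
      ∃ κ : ℝ, 0 < κ ∧ ∃ Z₀ : ℝ, ∀ Z : ℝ, Z₀ ≤ Z →
      ∃ p : ℕ, p.Prime ∧ p ≡ b [MOD d] ∧ Z < p ∧ (p : ℝ) ≤ (1 + ρ) * Z ∧
        ∀ j, PrimeFreeAround (∑ x ∈ F j, a j x * (p : ℝ) ^ x) (κ * f Z)) ∧
    (∀ (r : ℕ) (α c : Fin r → ℝ), 1 ≤ r → (∀ j, 0 < α j) → (∀ j, 0 < c j) →
      (∀ j, ∀ m : ℕ, c j ≠ m) → Function.Injective c →
      ∀ (d b : ℕ), 0 < d → b.Coprime d → ∀ ρ : ℝ, 0 < ρ →
      ∃ κ : ℝ, 0 < κ ∧ ∃ Z₀ : ℝ, ∀ Z : ℝ, Z₀ ≤ Z →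
      ∃ p : ℕ, p.Prime ∧ p ≡ b [MOD d] ∧ Z < p ∧ (p : ℝ) ≤ (1 + ρ) * Z ∧
        ∀ j, PrimeFreeAround (α j * (p : ℝ) ^ c j) (κ * f Z)) := by
  refine ⟨fun r F a c hr h1 h2 h3 h4 h5 d b hd hb ρ hρ => Pool.Agent.Y961.JR.primes_gen hr
    ⟨fun j => (h1 j).1, fun j => (h1 j).2, h2, h3, h4, h5⟩ d b hd hb ρ hρ, ?_⟩
  intro r α c hr h2 h3 h4 h5 d b hd hb ρ hρ
  have h := Pool.Agent.Y961.JR.primes_gen (F := fun j => {c j}) (a := fun j _ => α j) (c := c) hr
    ⟨fun j => Finset.mem_singleton_self _, fun j x hx => (Finset.mem_singleton.mp hx).le,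
      h2, h3, h4, h5⟩ d b hd hb ρ hρ
  simp only [Finset.sum_singleton] at h
  exact h

end Pool.Agent.Results.MP_45ff98_nt.SeveralPowersOfPrimes
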