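import Pool.Agent.Y835.SC.Fin4

/-!
# Coverings of Erdős-Rankin type: a limit for the length of the interval covered

All the known lower bounds for large gaps between primes (Westzynthius, Erdős, Rankin, Maier and
Pomerance, Pintz, Ford, Green, Konyagin, Maynard and Tao) cover an interval of `U` integers with one
residue class for each prime `p ≤ y`, where `y` is about `log X`, and take the class of `0` for all
medium primes `z < p ≤ y / 2`; the classes of the primes `p ≤ z` and `y / 2 < p ≤ y` are chosen with
care.  For large `x` a negative answer to Schinzel's question, a prime-free interval `(x, x + (log x)^2)`, would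
need such a covering with `U` about `y ^ 2`.

Author: helper835.

Let `n` be an integer and let `P` be any finite set of primes `p ≤ y`.  The integers `n + h`,
`1 ≤ h ≤ U`, divisible by a prime `p` of `P` are those with `h` in the class of `- n` modulo `p`, so
`n` encodes an arbitrary choice of one residue class for each prime of `P`, and the class of `0` is
chosen for `p` when `p ∣ n`.

First part: if the sum of `1 / p` over the primes `p > z` of `P` whose class is not `0` is at most
`c θ`, where `θ = min(1, log(U/y) / log y) min(1, log(U/y) / log z)`, then at least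
`c θ U ∏_{p ∈ P} (1 - 1/p)` of the `n + h` survive, for all `U ≥ C y` and `2 ≤ z ≤ y ^ c`.  So a
covering of this kind leaves a positive proportion of the expected number of survivors as soon as
`U ≥ y ^ (1 + ε)`, with any classes at all for the primes `p ≤ y ^ c(ε)`.

Second part: if the class is `0` for all primes `p` of `P` with `z < p ≤ y / 2`, with no condition on
the classes of the primes `p ≤ z` and `y / 2 < p ≤ y`, then an interval of length
`U ≥ C y exp (C √(log z))` is not covered.  In the known constructions `log z` is `o(log y)`, and no
construction of this kind can reach an interval of length `y exp (C √(log y))`, still less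
`y ^ (1 + ε)`.

Proof.  The survivors of the primes `p ≤ z` (arbitrary classes) and of the zero classes are bounded
below by counting the products `h + n`, where `h = m l`, `m` a product of primes at most `z`, and `l`
free of prime factors at most `y`, that is `h` with no prime factor in `(z, y]`; for each `m` the
linear sieve with the small primes is applied on a window whose relative length is bounded below, and
the remaining classes are removed with an upper bound sieve.
-/

set_option autoImplicit false

namespace Pool.Agent.Results.MP_45ff98_nt.StructuredCoverings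

open Finset

/-- the quantity `min(1, log(U/y) / log y) · min(1, log(U/y) / log z)` -/
noncomputable def theta (y U z : ℕ) : ℝ :=
  min 1 (Real.log ((U : ℝ) / y) / Real.log y) * min 1 (Real.log ((U : ℝ) / y) / Real.log z)

open Classical in
/-- the number of `h` with `1 ≤ h ≤ U` such that `n + h` is divisible by no prime of `P` -/
noncomputable def free (P : Finset ℕ) (n : ℤ) (U : ℕ) : ℕ :=
  ((Icc 1 U).filter (fun h : ℕ => ∀ p ∈ P, ¬ (p : ℤ) ∣ n + h)).card

open Classical in
theorem result : ∃ (c C : ℝ) (Y : ℕ), 0 < c ∧ 0 < C ∧
    ∀ (y U z : ℕ) (n : ℤ) (P : Finset ℕ), Y ≤ y → C * y ≤ U → 2 ≤ z → (z : ℝ) ≤ (y : ℝ) ^ c →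
      (∀ p ∈ P, p.Prime ∧ p ≤ y) →
      (∑ p ∈ P.filter (fun p : ℕ => z < p ∧ ¬ (p : ℤ) ∣ n), 1 / (p : ℝ) ≤ c * theta y U z →
        c * theta y U z * (U * ∏ p ∈ P, (1 - 1 / (p : ℝ))) ≤ free P n U) ∧
      ((∀ p ∈ P, z < p → 2 * p ≤ y → (p : ℤ) ∣ n) → C * y * Real.exp (C * √(Real.log z)) ≤ U →
        ∃ h : ℕ, 1 ≤ h ∧ h ≤ U ∧ ∀ p ∈ P, ¬ (p : ℤ) ∣ n + h) := by
  obtain ⟨c, C, Y, hc, hC, H⟩ := Pool.Agent.Y835.SC.partF
  refine ⟨c, C, Y, hc, hC, fun y U z n P hy hU hz hzy hP => ?_⟩
  obtain ⟨h1, h2⟩ := H y U z n P hy hU hz hzy hP
  exact ⟨fun hS => h1 (theta y U z) rfl hS, h2⟩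

end Pool.Agent.Results.MP_45ff98_nt.StructuredCoverings
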