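import Pool.Agent.Y565.RG.TriF

set_option autoImplicit false

/-! # Prime gaps of record length along arbitrary triangle systems on separated sets of reals

Let `0 < ε ≤ 1` and `F(Z) = log Z (log₂ Z)² log₄ Z / (log₃ Z)²`, the record order of the prime gaps
(starting library).  There is `κ > 0` such that for all large `Z` the following holds.  Let
`U, V ≥ Z ^ ε` and `Z ^ ε ≤ R ≤ Z`, let `X ⊂ [0, U]`, `Y ⊂ [0, V]`, `W ⊂ [0, R]` be ANY finite sets of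
real numbers, the elements of each with mutual distances at least `1`, let `R₁`, `R₂`, `R₃` be ANY
bipartite graphs between `Y` and `W`, `X` and `W`, `X` and `Y`, let `E` be the set of their triangles
`(x, y, w)`, and suppose `|E| ≥ U V R Z ^ (-ε / 256)`.  Let `α` be real with `|α| U V R ≥ Z ^ ε` and
`|α| U ≤ Z ^ (-ε)`, and let `f`, `g`, `h` be ANY real functions of TWO variables with
`α x y w + f(y, w) + g(x, w) + h(x, y) ≥ Z ^ ε` on `E`.  Then for at least `|E| Z ^ (-ε)` triangles in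
`E` no prime lies within `κ F(Z)` of `α x y w + f(y, w) + g(x, w) + h(x, y)`.

Proof: the inequality of Cauchy and Schwarz removes `f` and leaves bilinear sums in `(y, w)` with the
phases `θ (x - x') y w`, which are estimated by a simple form of the double large sieve of Bombieri and
Iwaniec (for `x`, `x'` that are not too close); the covering sieve of the starting library, in the form
`TH915.PW.crit_scaled`, does the rest. -/

namespace Pool.Agent.Results.MP_45ff98_nt.TrianglesOfReals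

theorem result (ε : ℝ) (hε : 0 < ε) (hε1 : ε ≤ 1) :
    ∃ κ : ℝ, 0 < κ ∧ ∃ Z₀ : ℝ, ∀ Z : ℝ, Z₀ ≤ Z →
      ∀ (α U V R : ℝ) (X Y W : Finset ℝ) (R₁ R₂ R₃ : ℝ → ℝ → Prop) (f g h : ℝ → ℝ → ℝ)
        (E : Finset (ℝ × ℝ × ℝ)),
      Z ^ ε ≤ U → Z ^ ε ≤ V → Z ^ ε ≤ R → R ≤ Z →
      Z ^ ε ≤ |α| * (U * V * R) → |α| * U ≤ Z ^ (-ε) →
      (∀ x ∈ X, 0 ≤ x ∧ x ≤ U) → (∀ x ∈ X, ∀ x' ∈ X, x ≠ x' → 1 ≤ |x - x'|) →
      (∀ y ∈ Y, 0 ≤ y ∧ y ≤ V) → (∀ y ∈ Y, ∀ y' ∈ Y, y ≠ y' → 1 ≤ |y - y'|) →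
      (∀ w ∈ W, 0 ≤ w ∧ w ≤ R) → (∀ w ∈ W, ∀ w' ∈ W, w ≠ w' → 1 ≤ |w - w'|) →
      (∀ p, p ∈ E ↔ (p.1 ∈ X ∧ p.2.1 ∈ Y ∧ p.2.2 ∈ W) ∧
        R₁ p.2.1 p.2.2 ∧ R₂ p.1 p.2.2 ∧ R₃ p.1 p.2.1) →
      U * V * R * Z ^ (-(ε / 256)) ≤ E.card →
      (∀ p ∈ E, Z ^ ε ≤ α * p.1 * p.2.1 * p.2.2 + f p.2.1 p.2.2 + g p.1 p.2.2 + h p.1 p.2.1) →
      ∃ S : Finset (ℝ × ℝ × ℝ), S ⊆ E ∧ (E.card : ℝ) * Z ^ (-ε) ≤ S.card ∧
        ∀ p ∈ S, ∀ q : ℕ, q.Prime →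
          κ * (Real.log Z * (Real.log (Real.log Z)) ^ 2 *
            Real.log (Real.log (Real.log (Real.log Z))) /
              (Real.log (Real.log (Real.log Z))) ^ 2) <
            |(q : ℝ) - (α * p.1 * p.2.1 * p.2.2 + f p.2.1 p.2.2 + g p.1 p.2.2 + h p.1 p.2.1)| := by
  obtain ⟨κ, hκ, h⟩ := Pool.Agent.Y565.RG.tri_scale ε hε hε1
  obtain ⟨Z₀, h0⟩ := Filter.eventually_atTop.mp h
  exact ⟨κ, hκ, Z₀, fun Z hZ => h0 Z hZ⟩

end Pool.Agent.Results.MP_45ff98_nt.TrianglesOfReals
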